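import Pool.Agent.ZPK.StmtsR2

/-!
Squad ZPK (MP_6e1a06_nt), row MIS: the missing case does not occur.
-/

set_option autoImplicit false

namespace Pool.Agent.ZPK.H87

open Polynomial Pool.Agent.ZPT Pool.Agent.ZP3 Pool.Agent.ZPK

theorem mis (_h1 : ZP3.THBStmt) (h2 : NumStmt) (h3 : PlgStmt) (h4 : SysStmt) (h5 : NrmStmt) :
    MisStmt := by
  intro p E hp hE hpE K _ _ _ _ _ hext Log hLog L hL s e₁ e₂ e' m β t a₁ a₂ F₁ F₂ n₁ n₂ g₁ g₂ l₁ l₂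
    G₁ G₂ c d hc hd hF₁ hF₂ hSy
  obtain ⟨hrh1, hrh0, -, -⟩ := h2 p E hp hE hpE
  have hp2 : 1000 < p := by nlinarith [Nat.zero_le E]
  have hp1R : (1 : ℝ) < (p : ℝ) := by exact_mod_cast (by omega : 1 < p)
  have hp0R : (0 : ℝ) < (p : ℝ) := by linarith
  have htn := hSy.r₁.tn
  have hs0 : 0 < s := hSy.r₁.s0
  have hs0R : (0 : ℝ) < (s : ℝ) := by exact_mod_cast hs0
  have ht1 : ‖t‖ < 1 := by
    rw [htn]
    exact Real.rpow_lt_one_of_one_lt_of_neg hp1R (by linarith)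
  have ht0 : 0 < ‖t‖ := by
    rw [htn]
    exact Real.rpow_pos_of_pos hp0R _
  obtain ⟨ζ, hζ, c₁, hc₁, c₂, hc₂, hc₁n, hX⟩ := h4 p E hp hE hpE K hext Log hLog L hL s e₁ e₂ e' m β t
    a₁ a₂ F₁ F₂ n₁ n₂ g₁ g₂ l₁ l₂ G₁ G₂ hSy
  obtain ⟨d₁, hd₁, hG₁⟩ := h3 p E hp hE hpE K hext L e₁ m t F₁ G₁ c hSy.he₁.1 hSy.he₁.2 hc ht1
    hSy.hF.1 hF₁ hSy.hG.1 hSy.hG.2.2.1
  obtain ⟨d₂, hd₂, hG₂⟩ := h3 p E hp hE hpE K hext L e₂ m t F₂ G₂ d hSy.he₂.1 hSy.he₂.2 hd ht1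
    hSy.hF.2 hF₂ hSy.hG.2.1 hSy.hG.2.2.2
  -- the exponent
  have hsR : ((m : ℝ) + e' * (p : ℝ) ^ β) * (s : ℝ) = (p : ℝ) ^ β := by
    exact_mod_cast hSy.hs
  have hpβ : (0 : ℝ) < (p : ℝ) ^ β := by positivity
  have hm1 : (1 : ℝ) ≤ (m : ℝ) := by exact_mod_cast hSy.hm.1
  have he'1 : (1 : ℝ) ≤ (e' : ℝ) := by exact_mod_cast hSy.he'.1
  have hmE : (m : ℝ) ≤ (E : ℝ) := by exact_mod_cast hSy.hm.2
  have hs1 : (s : ℝ) < 1 := by
    by_contra hcon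
    push Not at hcon
    have h6 : (p : ℝ) ^ β ≤ e' * (p : ℝ) ^ β := by nlinarith
    have h7 : ((m : ℝ) + e' * (p : ℝ) ^ β) * 1 ≤ ((m : ℝ) + e' * (p : ℝ) ^ β) * (s : ℝ) := by
      apply mul_le_mul_of_nonneg_left hcon
      positivity
    linarith
  have hpow : ‖t‖ ^ (m + e' * p ^ β) = ((p : ℝ)⁻¹) ^ (p ^ β) := by
    rw [htn, ← Real.rpow_natCast, ← Real.rpow_mul hp0R.le, inv_pow, ← Real.rpow_natCast (p : ℝ) (p ^ β),
      ← Real.rpow_neg hp0R.le]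
    congr 1
    push_cast
    linarith [hsR]
  -- numbers
  have hER : (1 : ℝ) ≤ (E : ℝ) := by exact_mod_cast hE
  have hpER : 1000 * ((E : ℝ) + 1) ^ 2 < (p : ℝ) := by exact_mod_cast hpE
  have hrhp : rh p E ^ p < ‖t‖ ^ m := by
    rw [htn, rh, ← Real.rpow_natCast, ← Real.rpow_natCast, ← Real.rpow_mul hp0R.le,
      ← Real.rpow_mul hp0R.le]
    apply Real.rpow_lt_rpow_of_exponent_lt hp1R
    have h8 : (s : ℝ) * (m : ℝ) < (E : ℝ) := by nlinarith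
    have h9 : (E : ℝ) < (p : ℝ) / (2 * (E : ℝ)) := by
      rw [lt_div_iff₀ (by positivity)]
      nlinarith
    have h10 : -(1 : ℝ) / (2 * (E : ℝ)) * (p : ℝ) = -((p : ℝ) / (2 * (E : ℝ))) := by ring
    rw [h10]
    linarith
  set X : K := (1 + c₁) * G₁ - G₂ - ζ * (1 + c₂) * t ^ m with hXdef
  have hXp : (rh p E * (p : ℝ)⁻¹) ^ p < ‖X‖ ^ p := by
    rw [hX, mul_pow, mul_comm]
    apply mul_lt_mul_of_pos_left hrhp
    positivity
  have hXlt : rh p E * (p : ℝ)⁻¹ < ‖X‖ := lt_of_pow_lt_pow_left₀ p (norm_nonneg _) hXp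
  set α : ℕ → K := fun n => (1 + c₁) * d₁ n - d₂ n with hα
  set X' : K := ∑ n ∈ Finset.range (E * (2 * E + 1) + 1), α n * t ^ n - ζ * (1 + c₂) * t ^ m with hX'
  have hsum : ∑ n ∈ Finset.range (E * (2 * E + 1) + 1), α n * t ^ n =
      (1 + c₁) * ∑ n ∈ Finset.range (E * (2 * E + 1) + 1), d₁ n * t ^ n -
        ∑ n ∈ Finset.range (E * (2 * E + 1) + 1), d₂ n * t ^ n := by
    rw [Finset.mul_sum, ← Finset.sum_sub_distrib]
    refine Finset.sum_congr rfl fun n _ => ?_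
    simp only [hα]
    ring
  have hdiff : X - X' = (1 + c₁) * (G₁ - ∑ n ∈ Finset.range (E * (2 * E + 1) + 1), d₁ n * t ^ n) -
      (G₂ - ∑ n ∈ Finset.range (E * (2 * E + 1) + 1), d₂ n * t ^ n) := by
    rw [hXdef, hX', hsum]
    ring
  have h1c : ‖1 + c₁‖ ≤ 1 := by
    refine (IsUltrametricDist.norm_add_le_max _ _).trans ?_
    rw [norm_one]
    refine max_le le_rfl (hc₁n.trans ?_)
    exact inv_le_one_of_one_le₀ hp1R.le
  have hXX' : ‖X - X'‖ ≤ rh p E * (p : ℝ)⁻¹ := by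
    rw [hdiff]
    rw [sub_eq_add_neg _ (G₂ - ∑ n ∈ Finset.range (E * (2 * E + 1) + 1), d₂ n * t ^ n)]
    refine (IsUltrametricDist.norm_add_le_max _ _).trans (max_le ?_ (by rw [norm_neg]; exact hG₂))
    rw [norm_mul]
    calc ‖1 + c₁‖ * ‖G₁ - ∑ n ∈ Finset.range (E * (2 * E + 1) + 1), d₁ n * t ^ n‖
        ≤ 1 * (rh p E * (p : ℝ)⁻¹) := by
          apply mul_le_mul h1c hG₁ (norm_nonneg _) zero_le_one
      _ = rh p E * (p : ℝ)⁻¹ := one_mul _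
  have hnorm : ‖X'‖ = ‖X‖ := by
    have h11 : ‖X - X'‖ < ‖X‖ := lt_of_le_of_lt hXX' hXlt
    have h12 : X' = X - (X - X') := by ring
    rw [h12, sub_eq_add_neg]
    have h13 : ‖X‖ ≠ ‖-(X - X')‖ := by
      rw [norm_neg]
      exact ne_of_gt h11
    rw [IsUltrametricDist.norm_add_eq_max_of_norm_ne_norm h13, norm_neg, max_eq_left h11.le]
  have hfin := h5 p hp (by omega) K hext L hL α (1 + c₂) ζ t m e' β (E * (2 * E + 1) + 1)
    (fun n => L.sub_mem (L.mul_mem (L.add_mem L.one_mem hc₁) (hd₁ n)) (hd₂ n))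
    (L.add_mem L.one_mem hc₂) hζ hSy.hm.1 (by have := hSy.hm.2; nlinarith)
    (by have h14 : E * (2 * E + 1) + 2 ≤ p := by nlinarith
        omega)
    hSy.he'.1 (by have := hSy.hm.2; have := hSy.he'.2; have h15 : 2 * E + 2 ≤ p := by nlinarith
                  have h16 : 2 * E + 2 < p := by nlinarith
                  omega) hSy.hb hpow
  exact hfin (by rw [← hX', hnorm, hX])

end Pool.Agent.ZPK.H87
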